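import Pool.Agent.Q158.CoverUniv

/-!
# The smallest ordered set containing all n-element ordered sets as covering subsets
-/

set_option autoImplicit false

namespace Pool.Agent.Results.MP_390115_co.SingleExponential

open Q158.CoverUniv

/-- `b n ≤ n * 2 ^ (n - 1)` and `(b n) ^ n ≥ 2 ^ ⌊n ^ 2 / 4⌋` for all `n`. In particular
`b n = 2 ^ Θ(n)`. -/
theorem result : ∀ n : ℕ, b n ≤ n * 2 ^ (n - 1) ∧ 2 ^ (n ^ 2 / 4) ≤ b n ^ n :=
  fun n => ⟨b_le n, le_b n⟩

end Pool.Agent.Results.MP_390115_co.SingleExponential
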